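import Pool.Agent.Q201.AR.Stm2

/-! MLA for project AR part 2 (MP_f714b8_lc): Marker presentation, one jump less, first half. -/

set_option autoImplicit false

open Pool.Agent.Helper578.JD Pool.Agent.Helper578.JD.Oracle Encodable

namespace Pool.Agent.Q254.AR

open Q201.AR

section dec

variable {α β : Type} [Primcodable α] [Primcodable β] {A : Set ℕ}

theorem dOf {P : α → Prop} (h : ComputablePred P) : Dec A P :=
  ⟨REIn.of_re h.to_re, REIn.of_re h.not.to_re⟩

theorem dEq {P Q : α → Prop} (h : Dec A P) (e : ∀ a, P a ↔ Q a) : Dec A Q :=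
  ⟨h.1.of_eq e, h.2.of_eq fun a => not_congr (e a)⟩

theorem dNot {P : α → Prop} (h : Dec A P) : Dec A fun a => ¬ P a :=
  ⟨h.2, h.1.of_eq fun _ => not_not.symm⟩

theorem dAnd {P Q : α → Prop} (h : Dec A P) (h' : Dec A Q) : Dec A fun a => P a ∧ Q a :=
  ⟨h.1.and h'.1, (h.2.or h'.2).of_eq fun a => by tauto⟩

theorem dComp {P : β → Prop} (h : Dec A P) {f : α → β} (hf : Computable f) :
    Dec A fun a => P (f a) := ⟨h.1.comp hf, h.2.comp hf⟩

theorem ok_re : REIn A (fun c : List ℕ × List ℕ => Ok A c) :=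
  REIn.and
    (REIn.all_mem (S := fun (_ : List ℕ × List ℕ) (x : ℕ) => x ∈ A) (REIn.mem (by fun_prop))
      (by fun_prop))
    (REIn.all_mem (S := fun (_ : List ℕ × List ℕ) (x : ℕ) => x ∉ A) (REIn.not_mem (by fun_prop))
      (by fun_prop))

theorem nok_re : REIn A (fun c : List ℕ × List ℕ => ¬ Ok A c) := by
  refine REIn.of_eq (S := fun c : List ℕ × List ℕ => (∃ x, x ∈ c.1 ∧ x ∉ A) ∨
    ∃ x, x ∈ c.2 ∧ x ∈ A) (REIn.or ?_ ?_) ?_
  · refine REIn.ex (S := fun (c : List ℕ × List ℕ) (x : ℕ) => x ∈ c.1 ∧ x ∉ A) ?_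
    exact REIn.and (REIn.of_re (RE.mem_list (f := fun y : (List ℕ × List ℕ) × ℕ => y.2)
      (l := fun y : (List ℕ × List ℕ) × ℕ => y.1.1) (by fun_prop) (by fun_prop)))
      (REIn.not_mem (by fun_prop))
  · refine REIn.ex (S := fun (c : List ℕ × List ℕ) (x : ℕ) => x ∈ c.2 ∧ x ∈ A) ?_
    exact REIn.and (REIn.of_re (RE.mem_list (f := fun y : (List ℕ × List ℕ) × ℕ => y.2)
      (l := fun y : (List ℕ × List ℕ) × ℕ => y.1.2) (by fun_prop) (by fun_prop)))
      (REIn.mem (by fun_prop))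
  · intro c
    unfold Ok
    constructor
    · rintro (⟨x, h1, h2⟩ | ⟨x, h1, h2⟩) ⟨h3, h4⟩
      · exact h2 (h3 x h1)
      · exact h4 x h1 h2
    · intro h
      by_contra h'
      push Not at h'
      exact h ⟨fun x hx => h'.1 x hx, fun x hx => h'.2 x hx⟩

/-- normal form with unique witnesses -/
theorem normal {S : α → Prop} (h : REIn A S) : ∃ D : α → ℕ → Prop,
    Dec A (fun x : α × ℕ => D x.1 x.2) ∧ (∀ a, S a ↔ ∃ t, D a t) ∧
      ∀ a t t', D a t → D a t' → t = t' := by
  obtain ⟨R, hR, hS⟩ := h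
  obtain ⟨q, hq, hRq⟩ := RE.re_iff.1 hR
  have hq' : Computable fun x : (α × (List ℕ × List ℕ)) × ℕ => q x.1 x.2 := hq
  let D0 : α → ℕ → Prop := fun a t => ∃ c : List ℕ × List ℕ,
    decode (α := List ℕ × List ℕ) t.unpair.1 = some c ∧ q (a, c) t.unpair.2 = true ∧ Ok A c
  have hD0 : Dec A (fun x : α × ℕ => D0 x.1 x.2) := by
    constructor
    · refine REIn.ex (S := fun (x : α × ℕ) (c : List ℕ × List ℕ) =>
        decode (α := List ℕ × List ℕ) x.2.unpair.1 = some c ∧
          q (x.1, c) x.2.unpair.2 = true ∧ Ok A c) ?_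
      refine REIn.and (REIn.of_re (RE.eq (by fun_prop) (by fun_prop)))
        (REIn.and (REIn.of_re (RE.of_bool ?_)) (ok_re.comp (by fun_prop)))
      exact hq'.comp (f := fun x : (α × (List ℕ × List ℕ)) × ℕ => q x.1 x.2)
        (g := fun y : (α × ℕ) × (List ℕ × List ℕ) => ((y.1.1, y.2), y.1.2.unpair.2))
        (by fun_prop)
    · refine REIn.of_eq (S := fun x : α × ℕ =>
        decode (α := List ℕ × List ℕ) x.2.unpair.1 = none ∨ ∃ c : List ℕ × List ℕ,
          decode (α := List ℕ × List ℕ) x.2.unpair.1 = some c ∧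
            ((!(q (x.1, c) x.2.unpair.2)) = true ∨ ¬ Ok A c)) (REIn.or ?_ ?_) ?_
      · exact REIn.of_re (RE.eq (by fun_prop) (by fun_prop))
      · refine REIn.ex (S := fun (x : α × ℕ) (c : List ℕ × List ℕ) =>
          decode (α := List ℕ × List ℕ) x.2.unpair.1 = some c ∧
            ((!(q (x.1, c) x.2.unpair.2)) = true ∨ ¬ Ok A c)) ?_
        refine REIn.and (REIn.of_re (RE.eq (by fun_prop) (by fun_prop)))
          (REIn.or (REIn.of_re (RE.of_bool ?_)) (nok_re.comp (by fun_prop)))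
        exact RE.cnot (hq'.comp (f := fun x : (α × (List ℕ × List ℕ)) × ℕ => q x.1 x.2)
          (g := fun y : (α × ℕ) × (List ℕ × List ℕ) => ((y.1.1, y.2), y.1.2.unpair.2))
          (by fun_prop))
      · rintro ⟨a, t⟩
        show _ ↔ ¬ ∃ c : List ℕ × List ℕ,
          decode (α := List ℕ × List ℕ) t.unpair.1 = some c ∧ q (a, c) t.unpair.2 = true ∧ Ok A c
        constructor
        · rintro (h1 | ⟨c, h1, h2⟩) ⟨c', h3, h4, h5⟩
          · have h1' : decode (α := List ℕ × List ℕ) t.unpair.1 = none := h1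
            rw [h1'] at h3
            exact Option.some_ne_none c' h3.symm
          · have h1' : decode (α := List ℕ × List ℕ) t.unpair.1 = some c := h1
            rw [h1'] at h3
            obtain rfl := Option.some.inj h3
            rcases h2 with h2 | h2
            · have h2' : (!(q (a, c) t.unpair.2)) = true := h2
              rw [h4] at h2'
              exact Bool.false_ne_true h2'
            · exact h2 h5
        · intro h1
          rcases hc : decode (α := List ℕ × List ℕ) t.unpair.1 with _ | c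
          · exact Or.inl rfl
          · refine Or.inr ⟨c, rfl, ?_⟩
            by_contra h2
            push Not at h2
            refine h1 ⟨c, hc, ?_, h2.2⟩
            have h3 := h2.1
            have h4 : (!(q (a, c) t.unpair.2)) ≠ true := h3
            rcases hb : q (a, c) t.unpair.2 with _ | _
            · rw [hb] at h4
              exact absurd rfl h4
            · rfl
  have hSD : ∀ a, S a ↔ ∃ t, D0 a t := by
    intro a
    rw [hS]
    constructor
    · rintro ⟨c, h1, h2⟩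
      obtain ⟨n, hn⟩ := (hRq (a, c)).1 h1
      exact ⟨Nat.pair (encode c) n, c, by rw [Nat.unpair_pair]; exact encodek c,
        by rw [Nat.unpair_pair]; exact hn, h2⟩
    · rintro ⟨t, c, h1, h2, h3⟩
      exact ⟨c, (hRq (a, c)).2 ⟨_, h2⟩, h3⟩
  classical
  refine ⟨fun a t => D0 a t ∧ ∀ t' < t, ¬ D0 a t', ?_, ?_, ?_⟩
  · refine dAnd hD0 ⟨?_, ?_⟩
    · refine REIn.all_lt (S := fun (x : α × ℕ) (t' : ℕ) => ¬ D0 x.1 t') ?_ (by fun_prop)
      exact hD0.2.comp (f := fun y : (α × ℕ) × ℕ => (y.1.1, y.2)) (by fun_prop)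
    · refine REIn.of_eq (S := fun x : α × ℕ => ∃ t', t' < x.2 ∧ D0 x.1 t') ?_ ?_
      · refine REIn.ex (S := fun (x : α × ℕ) (t' : ℕ) => t' < x.2 ∧ D0 x.1 t') ?_
        exact REIn.and (REIn.of_re (RE.lt (by fun_prop) (by fun_prop)))
          (hD0.1.comp (f := fun y : (α × ℕ) × ℕ => (y.1.1, y.2)) (by fun_prop))
      · intro x
        push Not
        rfl
  · intro a
    rw [hSD]
    constructor
    · intro h
      exact ⟨Nat.find h, Nat.find_spec h, fun t' ht' => Nat.find_min h ht'⟩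
    · rintro ⟨t, h, -⟩
      exact ⟨t, h⟩
  · rintro a t t' ⟨h1, h2⟩ ⟨h3, h4⟩
    rcases lt_trichotomy t t' with h | h | h
    · exact absurd h1 (h4 t h)
    · exact h
    · exact absurd h3 (h2 t' h)

end dec

theorem cvec : Computable (fun p : ℕ × ℕ => (![p.1, p.2] : Fin 2 → ℕ)) := by
  have h : Primrec (fun p : ℕ × ℕ => (![p.1, p.2] : Fin 2 → ℕ)) := by
    refine Primrec.fin_curry.2 (Primrec₂.swap ?_)
    refine (Primrec.fin_curry₁ (f := fun (i : Fin 2) (p : ℕ × ℕ) =>
      (![p.1, p.2] : Fin 2 → ℕ) i)).2 fun i => ?_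
    fin_cases i
    · exact Primrec.fst
    · exact Primrec.snd
  exact h.to_comp

theorem capp {n : ℕ} (i : Fin n) : Computable (fun v : Fin n → ℕ => v i) :=
  Computable.fin_app.comp Computable.id (Computable.const i)

theorem cmod {α : Type} [Primcodable α] {f : α → ℕ} (hf : Computable f) (k : ℕ) :
    Computable (fun x => f x % k) := Primrec.nat_mod.to_comp.comp hf (Computable.const k)

theorem cdiv {α : Type} [Primcodable α] {f : α → ℕ} (hf : Computable f) (k : ℕ) :
    Computable (fun x => f x / k) := Primrec.nat_div.to_comp.comp hf (Computable.const k)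

theorem t_MLA : S_MLA := by
  intro hE A R hR
  have hR' : REIn A (fun p : ℕ × ℕ => ¬ R p.1 p.2) := by
    have h : REIn A fun p : ℕ × ℕ => ¬ R ((![p.1, p.2] : Fin 2 → ℕ) 0) ((![p.1, p.2] : Fin 2 → ℕ) 1) :=
      REIn.comp (S := fun v : Fin 2 → ℕ => ¬ R (v 0) (v 1)) hR cvec
    exact h
  obtain ⟨D, hD, hRD, huniq⟩ := normal hR'
  have half : Computable fun n : ℕ => n / 2 := cdiv Computable.id 2
  have cpar : Computable fun n : ℕ => n % 2 := cmod Computable.id 2
  -- valid numbers
  let Val : ℕ → Prop := fun n => n % 2 = 0 ∧ D (n / 2).unpair.1.unpair (n / 2).unpair.2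
  have hVal : Dec A Val := by
    refine dAnd (dOf (RE.cp_eq cpar (Computable.const 0))) ?_
    exact dComp hD (f := fun n : ℕ => ((n / 2).unpair.1.unpair, (n / 2).unpair.2))
      (by fun_prop)
  have hinf : {x : ℕ | ¬ Val x}.Infinite := by
    refine Set.infinite_of_injective_forall_mem (f := fun n : ℕ => 2 * n + 1) ?_ ?_
    · intro a b h
      have h' : 2 * a + 1 = 2 * b + 1 := h
      omega
    · rintro n ⟨h, -⟩
      omega
  obtain ⟨f, finj, fV, fD⟩ := hE A (fun n => ¬ Val n) hVal.2 hinf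
  classical
  let w : ℕ → ℕ → ℕ := fun a b => if h : ∃ t, D (a, b) t then h.choose else 0
  have hw : ∀ a b, ¬ R a b → D (a, b) (w a b) := by
    intro a b h
    have h' : ∃ t, D (a, b) t := (hRD (a, b)).1 h
    show D (a, b) (if h : ∃ t, D (a, b) t then h.choose else 0)
    rw [dif_pos h']
    exact h'.choose_spec
  let num : ℕ → ℕ → ℕ := fun a b => 2 * Nat.pair (Nat.pair a b) (w a b)
  have hnum2 : ∀ a b, num a b / 2 = Nat.pair (Nat.pair a b) (w a b) := by
    intro a b
    show 2 * Nat.pair (Nat.pair a b) (w a b) / 2 = _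
    omega
  have hnumV : ∀ a b, ¬ R a b → Val (num a b) := by
    intro a b h
    refine ⟨?_, ?_⟩
    · show 2 * Nat.pair (Nat.pair a b) (w a b) % 2 = 0
      omega
    · rw [hnum2, Nat.unpair_pair]
      simpa using hw a b h
  have hback : ∀ y, Val y → ∃ a b, ¬ R a b ∧ y = num a b ∧ a = (y / 2).unpair.1.unpair.1 ∧
      b = (y / 2).unpair.1.unpair.2 := by
    rintro y ⟨h1, h2⟩
    have h3 : ¬ R (y / 2).unpair.1.unpair.1 (y / 2).unpair.1.unpair.2 :=
      (hRD ((y / 2).unpair.1.unpair.1, (y / 2).unpair.1.unpair.2)).2 ⟨_, h2⟩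
    refine ⟨_, _, h3, ?_, rfl, rfl⟩
    have h4 : w (y / 2).unpair.1.unpair.1 (y / 2).unpair.1.unpair.2 = (y / 2).unpair.2 :=
      huniq ((y / 2).unpair.1.unpair.1, (y / 2).unpair.1.unpair.2) _ _ (hw _ _ h3) h2
    show y = 2 * Nat.pair (Nat.pair _ _) (w _ _)
    rw [h4, Nat.pair_unpair, Nat.pair_unpair]
    omega
  refine ⟨fun a => 2 * a, fun a => 2 * f a + 1, fun a b => 2 * num a b + 1, ?_, ?_, ?_, ?_⟩
  · refine ⟨?_, ?_, ?_, ?_, ?_, ?_, ?_⟩
    · intro a b h
      have h' : 2 * a = 2 * b := h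
      omega
    · intro a b h
      have h' : 2 * f a + 1 = 2 * f b + 1 := h
      exact finj (by omega)
    · intro a b a' b' _ _ h
      have h' : 2 * num a b + 1 = 2 * num a' b' + 1 := h
      have h2 : num a b / 2 = num a' b' / 2 := by
        have : num a b = num a' b' := by omega
        rw [this]
      rw [hnum2, hnum2, Nat.pair_eq_pair, Nat.pair_eq_pair] at h2
      exact h2.1
    · intro a b h
      have h' : 2 * a = 2 * f b + 1 := h
      omega
    · intro a b c _ h
      have h' : 2 * a = 2 * num b c + 1 := h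
      omega
    · intro a b c hbc h
      have h' : 2 * f a + 1 = 2 * num b c + 1 := h
      have h2 : f a = num b c := by omega
      have h3 : ¬ Val (f a) := (fV (f a)).2 ⟨a, rfl⟩
      rw [h2] at h3
      exact h3 (hnumV b c hbc)
    · intro x
      rcases Nat.even_or_odd' x with ⟨y, hy | hy⟩
      · exact Or.inl ⟨y, hy⟩
      · right
        by_cases hv : Val y
        · obtain ⟨a, b, h1, h2, -, -⟩ := hback y hv
          refine Or.inr ⟨a, b, h1, ?_⟩
          show x = 2 * num a b + 1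
          rw [hy, ← h2]
        · obtain ⟨a, ha⟩ := (fV y).1 hv
          refine Or.inl ⟨a, ?_⟩
          show x = 2 * f a + 1
          rw [hy, ha]
  · refine dEq (P := fun v : Fin 1 → ℕ => v 0 % 2 = 0)
      (dOf (RE.cp_eq (cmod (capp 0) 2) (Computable.const 0))) fun v => ?_
    constructor
    · intro h
      have h' : v 0 % 2 = 0 := h
      exact ⟨v 0 / 2, by show v 0 = 2 * (v 0 / 2); omega⟩
    · rintro ⟨a, ha⟩
      have ha' : v 0 = 2 * a := ha
      show v 0 % 2 = 0
      omega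
  · refine dEq (P := fun v : Fin 2 → ℕ => v 0 % 2 = 1 ∧ v 1 % 2 = 0 ∧ f (v 1 / 2) = v 0 / 2)
      (dAnd (dOf (RE.cp_eq (cmod (capp 0) 2) (Computable.const 1)))
        (dAnd (dOf (RE.cp_eq (cmod (capp 1) 2) (Computable.const 0)))
          (dComp fD (f := fun v : Fin 2 → ℕ => (v 1 / 2, v 0 / 2))
            ((cdiv (capp 1) 2).pair (cdiv (capp 0) 2))))) fun v => ?_
    constructor
    · rintro ⟨h1, h2, h3⟩
      refine ⟨v 1 / 2, ?_, ?_⟩
      · show v 0 = 2 * f (v 1 / 2) + 1
        rw [h3]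
        omega
      · show v 1 = 2 * (v 1 / 2)
        omega
    · rintro ⟨a, h1, h2⟩
      have h1' : v 0 = 2 * f a + 1 := h1
      have h2' : v 1 = 2 * a := h2
      have h3 : v 1 / 2 = a := by omega
      refine ⟨by omega, by omega, ?_⟩
      rw [h3]
      omega
  · refine dEq (P := fun v : Fin 3 → ℕ => v 0 % 2 = 1 ∧ v 1 % 2 = 0 ∧ v 2 % 2 = 0 ∧
        v 0 / 2 % 2 = 0 ∧ (v 0 / 2 / 2).unpair.1 = Nat.pair (v 1 / 2) (v 2 / 2) ∧
          D (v 1 / 2, v 2 / 2) (v 0 / 2 / 2).unpair.2) ?_ fun v => ?_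
    · have c0 := capp (n := 3) 0
      have c1 := capp (n := 3) 1
      have c2 := capp (n := 3) 2
      have d0 := cdiv (cdiv c0 2) 2
      have d1 := cdiv c1 2
      have d2 := cdiv c2 2
      refine dAnd (dOf (RE.cp_eq (cmod c0 2) (Computable.const 1)))
        (dAnd (dOf (RE.cp_eq (cmod c1 2) (Computable.const 0)))
          (dAnd (dOf (RE.cp_eq (cmod c2 2) (Computable.const 0)))
            (dAnd (dOf (RE.cp_eq (cmod (cdiv c0 2) 2) (Computable.const 0)))
              (dAnd (dOf (RE.cp_eq ?_ (RE.cnatpair d1 d2))) ?_))))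
      · exact RE.cfst (RE.cunpair d0)
      · exact dComp hD (f := fun v : Fin 3 → ℕ => ((v 1 / 2, v 2 / 2), (v 0 / 2 / 2).unpair.2))
          ((d1.pair d2).pair (RE.csnd (RE.cunpair d0)))
    · constructor
      · rintro ⟨h1, h2, h3, h4, h5, h6⟩
        have h7 : ¬ R (v 1 / 2) (v 2 / 2) := (hRD (v 1 / 2, v 2 / 2)).2 ⟨_, h6⟩
        have h8 : w (v 1 / 2) (v 2 / 2) = (v 0 / 2 / 2).unpair.2 :=
          huniq (v 1 / 2, v 2 / 2) _ _ (hw _ _ h7) h6
        refine ⟨v 1 / 2, v 2 / 2, h7, ?_, ?_, ?_⟩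
        · show v 0 = 2 * (2 * Nat.pair (Nat.pair (v 1 / 2) (v 2 / 2)) (w (v 1 / 2) (v 2 / 2))) + 1
          rw [h8, ← h5, Nat.pair_unpair]
          omega
        · show v 1 = 2 * (v 1 / 2)
          omega
        · show v 2 = 2 * (v 2 / 2)
          omega
      · rintro ⟨a, b, h0, h1, h2, h3⟩
        have h1' : v 0 = 2 * num a b + 1 := h1
        have h2' : v 1 = 2 * a := h2
        have h3' : v 2 = 2 * b := h3
        have e1 : v 1 / 2 = a := by omega
        have e2 : v 2 / 2 = b := by omega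
        have e3 : v 0 / 2 = num a b := by omega
        obtain ⟨n1, n2⟩ := hnumV a b h0
        refine ⟨by omega, by omega, by omega, ?_, ?_, ?_⟩
        · rw [e3]
          exact n1
        · rw [e3, e1, e2, hnum2, Nat.unpair_pair]
        · rw [e3, e1, e2, hnum2, Nat.unpair_pair]
          exact hw a b h0

end Pool.Agent.Q254.AR

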